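import Mathlib
import Pool.Agent.X235.PPC.Main

/-! # Positive answer to MP_8f9fef_lc, Q1: countably many obstructions to pp-constructibility
from the two-element path, for all structures with a finite domain -/

namespace Pool.Agent.Results.MP_8f9fef_lc.CountableFamily

open Pool.Agent.X235.PPC

/-- There is a sequence `C 0, C 1, ...` of finite structures such that for every structure `B` with a
finite domain (and a finite or infinite signature) the following are equivalent: `B` has no
pp-construction from `P₂`; at least one `C i` has a pp-construction from `B`. -/
theorem result : ∃ C : ℕ → Str, (∀ i, (C i).FinSig) ∧
    ∀ B : Str, ¬ PPConstructs P2 B ↔ ∃ i, PPConstructs B (C i) :=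
  main

end Pool.Agent.Results.MP_8f9fef_lc.CountableFamily
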